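import Mathlib
import Pool.Agent.Lib.MP_663568_q.S03

/-!
# Q1 of MP_663568_nt for all functions of mean zero, outside major arcs which shrink with `H`

`G` is a nilpotent topological group with a subgroup `Γ`, such that every term of the lower central
series has coordinates (structure `Coord`; by Malcev all `G`, `Γ` of Q1 are of this form), `m` is an
invariant probability measure on `G ⧸ Γ`, `f` a continuous function of mean zero, `a` any bounded
multiplicative function.  For every `ε > 0` there are finitely many nontrivial characters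
`χ_k (g) = e(k ⬝ π(g))` with `∫ f conj χ_k ≠ 0`, `v > 0` and `C` such that the estimate of Q1 with the
supremum over all `x ∈ G` and all `g` in a family `𝒢 j` (`j = log_4 n`, so the family may depend
on the window, and on `H`, `N`) of elements outside the major arcs holds with constant `ε` if for
each of these `k` the `d / R` neighbourhoods of the sets `k ⬝ π(𝒢 j)` modulo one have measure at
most `v`, or the estimate for the linear phases `e(n k ⬝ π(g))`, `g ∈ 𝒢 j`, holds with constant `v`.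
-/

set_option autoImplicit false
open Finset

namespace Pool.Agent.Lib.MP_663568_mzf.MeanZeroFamilies

open Pool.Agent.Lib.MP_663568_nt Pool.Agent.Lib.MP_663568_nt.Katai
  Pool.Agent.Lib.MP_663568_nt.Tw Pool.Agent.Lib.MP_663568_nt.Fib Pool.Agent.Lib.MP_663568_nt.T3
  Pool.Agent.Lib.MP_663568_nt.E Pool.Agent.Lib.MP_663568_nt.H6 Pool.Agent.Lib.MP_663568_nt.Nul

/-- `G` is nilpotent of step at most `t`, and every term `G_(s+1)` (in Lean
`(⊤ : Subgroup G).lowerCentralSeries s`) of the lower central series has coordinates: `π s` is a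
continuous homomorphism from it to `ℝ ^ (d s)` with kernel the next term, integral on `Γ`, and the
`e s j` are one-parameter subgroups of it with `e s j 1 ∈ Γ` which `π s` maps to the coordinate
axes. -/
structure Coord (G : Type) [Group G] [TopologicalSpace G] (Γ : Subgroup G) (t : ℕ) where
  d : ℕ → ℕ
  π : (s : ℕ) → G → Fin (d s) → ℝ
  e : (s : ℕ) → Fin (d s) → ℝ → G
  nil : (⊤ : Subgroup G).lowerCentralSeries t = ⊥
  π_mul : ∀ s, ∀ x ∈ (⊤ : Subgroup G).lowerCentralSeries s,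
    ∀ y ∈ (⊤ : Subgroup G).lowerCentralSeries s, π s (x * y) = π s x + π s y
  π_cont : ∀ s, ContinuousOn (π s) ((⊤ : Subgroup G).lowerCentralSeries s)
  π_int : ∀ s, ∀ γ ∈ Γ, γ ∈ (⊤ : Subgroup G).lowerCentralSeries s → ∀ j, ∃ z : ℤ, π s γ j = z
  π_ker : ∀ s, ∀ x ∈ (⊤ : Subgroup G).lowerCentralSeries s,
    π s x = 0 ↔ x ∈ (⊤ : Subgroup G).lowerCentralSeries (s + 1)
  e_cont : ∀ s j, Continuous (e s j)
  e_add : ∀ s j a b, e s j (a + b) = e s j a * e s j b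
  e_one : ∀ s j, e s j 1 ∈ Γ
  e_mem : ∀ s j r, e s j r ∈ (⊤ : Subgroup G).lowerCentralSeries s
  e_π : ∀ s j r, π s (e s j r) = Pi.single j r

variable {G : Type} [Group G] [TopologicalSpace G] {Γ : Subgroup G} {t : ℕ}

/-- `|k ⬝ u - z| ≥ δ` for all integers `z` and all integer vectors `k` with `0 < |k| ≤ h` -/
def Far {m : ℕ} (h δ : ℝ) (u : Fin m → ℝ) : Prop :=
  ∀ k : Fin m → ℤ, k ≠ 0 → (∀ j, |(k j : ℝ)| ≤ h) → ∀ z : ℤ, δ ≤ |∑ j, (k j : ℝ) * u j - z|

/-- `g` is outside the major arcs: its image in `G ⧸ [G, G] = ℝ ^ m` has size at most `R`, is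
`d`-far from the relations of height `C` and `δ`-far from those of height `C (R / d) ^ C`. -/
def NotMajor (D : Coord G Γ t) (C : ℕ) (R d δ : ℝ) (g : G) : Prop :=
  (∀ j, |D.π 0 g j| ≤ R) ∧ Far (C : ℝ) d (D.π 0 g) ∧ Far (C * (R / d) ^ C) δ (D.π 0 g)

/-- the frequency `k ⬝ π(g)` of the character `k` -/
def freq (D : Coord G Γ t) (k : Fin (D.d 0) → ℤ) (g : G) : ℝ := ∑ j, (k j : ℝ) * D.π 0 g j

/-- The closed `r`-neighbourhoods modulo one of the frequencies of the elements of `𝒢 j` have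
measure at most `v`. -/
def SmallImage (D : Coord G Γ t) (k : Fin (D.d 0) → ℤ) (v r : ℝ) (𝒢 : ℕ → Set G) : Prop :=
  ∀ j, MeasureTheory.volume {y : ℝ | y ∈ Set.Icc (0 : ℝ) 1 ∧
    ∃ g ∈ 𝒢 j, ∃ b : ℤ, |freq D k g - y - b| ≤ r} ≤ ENNReal.ofReal v

/-- The estimate with constant `v` for the linear phases of the character `k`. -/
def PhaseEst (D : Coord G Γ t) (k : Fin (D.d 0) → ℤ) (a : ℕ → ℂ) (𝒢 : ℕ → Set G) (v : ℝ)
    (H N : ℕ) : Prop :=
  (∑ n ∈ Finset.Icc 1 N, (1 / (n : ℝ)) *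
    ⨆ g : {g : G // g ∈ 𝒢 (Nat.log 4 n)},
      ‖∑ h ∈ Finset.Icc 1 H,
        Complex.exp (2 * Real.pi * Complex.I * ((((n + h : ℕ) : ℝ) * freq D k g.1 : ℝ) : ℂ)) *
          a (n + h)‖) ≤ v * (H : ℝ) * Real.log (N : ℝ)

theorem result (G : Type) [Group G] [TopologicalSpace G] [IsTopologicalGroup G]
    (Γ : Subgroup G) (t : ℕ) (D : Coord G Γ t)
    [MeasurableSpace (G ⧸ Γ)] [BorelSpace (G ⧸ Γ)] (m : MeasureTheory.Measure (G ⧸ Γ))
    [MeasureTheory.IsProbabilityMeasure m] (hm : ∀ g : G, m.map (fun x => g • x) = m)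
    (f : G ⧸ Γ → ℂ) (hf : Continuous f) (hf0 : ∫ x, f x ∂m = 0) (ε : ℝ) (hε : 0 < ε) :
    ∃ S : Finset (Fin (D.d 0) → ℤ),
      (∀ k ∈ S, k ≠ 0 ∧ ∃ φ : G ⧸ Γ → ℂ,
        (∀ g : G, φ (QuotientGroup.mk g) =
          Complex.exp (2 * Real.pi * Complex.I * (freq D k g : ℂ))) ∧
        ∫ x, f x * (starRingEnd ℂ) (φ x) ∂m ≠ 0) ∧
      ∃ (v : ℝ) (C : ℕ), 0 < v ∧ 1 ≤ C ∧ ∀ a : ℕ → ℂ, (∀ n, ‖a n‖ ≤ 1) →
        (∀ p : ℕ, p.Prime → ∀ k, ¬ p ∣ k → a (p * k) = a p * a k) →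
        ∀ R d δ : ℝ, 1 ≤ R → 0 < δ → δ ≤ d → d ≤ 1 →
        ∀ H N : ℕ, C * (R / δ) ^ C ≤ H → H ≤ N →
        ∀ 𝒢 : ℕ → Set G, (∀ j, ∀ g ∈ 𝒢 j, NotMajor D C R d δ g) →
        (∀ k ∈ S, SmallImage D k v (d / R) 𝒢 ∨ PhaseEst D k a 𝒢 v H N) →
        (∑ n ∈ Finset.Icc 1 N, (1 / (n : ℝ)) *
          ⨆ i : {g : G // g ∈ 𝒢 (Nat.log 4 n)} × G,
            ‖∑ h ∈ Finset.Icc 1 H, f (QuotientGroup.mk ((i.1 : G) ^ (n + h) * i.2)) *
              a (n + h)‖)
        ≤ ε * (H : ℝ) * Real.log (N : ℝ) := by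
  classical
  have hN := Q.nsRaw Γ t D.nil D.d D.π D.e D.π_mul D.π_cont D.π_int D.π_ker D.e_cont
    D.e_add D.e_one D.e_mem D.e_π
  have hfr : Reg Γ (fun x : G => f (x : G ⧸ Γ)) :=
    ⟨hf.comp QuotientGroup.continuous_mk, fun x γ hγ => by
      simp only
      rw [QuotientGroup.mk_mul_of_mem x hγ]⟩
  obtain ⟨B, _, hB⟩ := reg_bdd (coc_prime hN) hfr
  obtain ⟨S, hS, v, C, hv, hC, hmain⟩ := Q.spec_R hN t D.nil m hm f hf hf0 ε hε
  refine ⟨S, fun k hk => ⟨(hS k hk).1, ?_⟩, v, C, hv, hC, ?_⟩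
  · obtain ⟨φ, hφ, hint⟩ := (hS k hk).2
    refine ⟨φ, fun g => ?_, hint⟩
    rw [hφ g, chi_apply, Circle.coe_exp]
    congr 1
    change ((2 * Real.pi * freq D k g : ℝ) : ℂ) * Complex.I = _
    push_cast
    ring
  intro a ha hmul R d δ hR hδ hδd hd1 H N hH hHN 𝒢 h𝒢 hyp
  have h1 := hmain C le_rfl a ha hmul R d δ hR hδ hδd hd1 H N hH hHN 𝒢
    (fun j g hg => ⟨(h𝒢 j g hg).1, fun k hk hkh => (h𝒢 j g hg).2.1 k hk hkh _,
      fun k hk hkh => (h𝒢 j g hg).2.2 k hk hkh _⟩) (by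
    intro k hk
    rcases hyp k hk with h2 | h2
    · left
      intro j
      refine (MeasureTheory.measure_mono ?_).trans (h2 j)
      rintro y ⟨hy, g, hg, hgy⟩
      obtain ⟨b, hb⟩ := nd_exists (freq D k g - y)
      refine ⟨hy, g, hg, b, ?_⟩
      rw [← hb]
      exact hgy
    · right
      refine le_trans (sum_le_sum fun n _ => ?_) h2
      refine mul_le_mul_of_nonneg_left ?_ (by positivity)
      have hbd : BddAbove (Set.range fun g : {g : G // g ∈ 𝒢 (Nat.log 4 n)} =>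
          ‖∑ h ∈ Finset.Icc 1 H, Complex.exp (2 * Real.pi * Complex.I *
            ((((n + h : ℕ) : ℝ) * freq D k g.1 : ℝ) : ℂ)) * a (n + h)‖) := by
        refine ⟨H, ?_⟩
        rintro _ ⟨g, rfl⟩
        refine norm_window_le (fun n => ee ((n : ℝ) * freq D k g.1)) a (fun n => ?_) ha H n
        rw [norm_ee]
      refine Real.iSup_le ?_ (Real.iSup_nonneg fun _ => norm_nonneg _)
      rintro ⟨y, g, hg, rfl⟩
      exact le_ciSup hbd ⟨g, hg⟩)
  refine le_trans (sum_le_sum fun n _ => ?_) h1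
  refine mul_le_mul_of_nonneg_left ?_ (by positivity)
  refine Real.iSup_le ?_ (GG_nonneg _ _ _ _)
  rintro ⟨⟨g, hg⟩, x⟩
  exact Q.gs_orb_le hB a ha {i : G × G | i.1 ∈ 𝒢 (Nat.log 4 n)} H n (g, x) hg

end Pool.Agent.Lib.MP_663568_mzf.MeanZeroFamilies
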